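import Mathlib

/-!
# A bound for the multiplicity of the unit element in powers of a multiset
-/

set_option autoImplicit false

open Finset

namespace Pool.Agent.Run7.H634.WZ

/-! ### Central binomial coefficients -/

theorem centralBinom_sq (k : ℕ) : k.centralBinom ^ 2 * (2 * k + 1) ≤ 16 ^ k := by
  induction k with
  | zero => simp
  | succ k ih =>
    have h1 : (k + 1) * (k + 1).centralBinom = 2 * (2 * k + 1) * k.centralBinom :=
      Nat.succ_mul_centralBinom_succ k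
    have h2 : (k + 1) ^ 2 * ((k + 1).centralBinom ^ 2 * (2 * (k + 1) + 1)) ≤
        (k + 1) ^ 2 * 16 ^ (k + 1) := by
      calc (k + 1) ^ 2 * ((k + 1).centralBinom ^ 2 * (2 * (k + 1) + 1))
          = ((k + 1) * (k + 1).centralBinom) ^ 2 * (2 * k + 3) := by ring
        _ = (k.centralBinom ^ 2 * (2 * k + 1)) * (4 * ((2 * k + 1) * (2 * k + 3))) := by
            rw [h1]
            ring
        _ ≤ 16 ^ k * (4 * (4 * (k + 1) ^ 2)) := by
            apply Nat.mul_le_mul ih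
            apply Nat.mul_le_mul_left
            nlinarith
        _ = (k + 1) ^ 2 * 16 ^ (k + 1) := by ring
    exact Nat.le_of_mul_le_mul_left h2 (by positivity)

theorem choose_half_sq (m : ℕ) : m.choose (m / 2) ^ 2 * (m + 1) ≤ 4 ^ m := by
  rcases Nat.even_or_odd' m with ⟨k, rfl | rfl⟩
  · have h1 : 2 * k / 2 = k := by omega
    rw [h1, ← Nat.centralBinom_eq_two_mul_choose, pow_mul]
    exact centralBinom_sq k
  · have h1 : (2 * k + 1) / 2 = k := by omega
    have h2 : (k + 1).centralBinom = 2 * (2 * k + 1).choose k := by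
      rw [Nat.centralBinom_eq_two_mul_choose, show 2 * (k + 1) = (2 * k + 1) + 1 by ring,
        Nat.choose_succ_succ, Nat.choose_symm_half]
      ring
    have h3 := centralBinom_sq (k + 1)
    rw [h1]
    rw [h2] at h3
    have h4 : (16 : ℕ) ^ (k + 1) = 4 * 4 ^ (2 * k + 1) := by
      rw [show (16 : ℕ) = 4 ^ 2 by norm_num, ← pow_mul, ← pow_succ']
      ring_nf
    rw [h4] at h3
    nlinarith

/-! ### The inequality -/

theorem sum_bound {b : ℕ} (hb : 2 ≤ b) (n : ℕ) :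
    2 * (n + 1) * (∑ m ∈ range (n + 1),
      n.choose m * (m.choose (m / 2) * (b - 2) ^ (n - m))) ^ 2 ≤ b ^ (2 * n + 1) := by
  set w : ℕ → ℝ := fun m => n.choose m * (2 : ℝ) ^ m * ((b - 2 : ℕ) : ℝ) ^ (n - m) with hw
  have hw0 : ∀ m, 0 ≤ w m := fun m => by
    rw [hw]
    positivity
  have h1 : ∀ m : ℕ, ((m.choose (m / 2) : ℕ) : ℝ) ≤ 2 ^ m / Real.sqrt (m + 1) := by
    intro m
    rw [le_div_iff₀ (by positivity)]
    have h2 := choose_half_sq m
    have h3 : ((m.choose (m / 2) : ℕ) : ℝ) ^ 2 * (m + 1) ≤ (2 ^ m) ^ 2 := by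
      rw [← pow_mul, mul_comm m 2, pow_mul]
      have := (Nat.cast_le (α := ℝ)).2 h2
      push_cast at this
      norm_num
      exact this
    rw [← pow_le_pow_iff_left₀ (by positivity) (by positivity) two_ne_zero, mul_pow,
      Real.sq_sqrt (by positivity)]
    exact h3
  have h2 : ((∑ m ∈ range (n + 1),
      n.choose m * (m.choose (m / 2) * (b - 2) ^ (n - m)) : ℕ) : ℝ) ≤
      ∑ m ∈ range (n + 1), Real.sqrt (w m) * Real.sqrt (w m / (m + 1)) := by
    push_cast
    apply Finset.sum_le_sum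
    intro m _
    have h3 : Real.sqrt (w m) * Real.sqrt (w m / (m + 1)) = w m / Real.sqrt (m + 1) := by
      rw [← Real.sqrt_mul (hw0 m), mul_div_assoc', Real.sqrt_div (by positivity),
        Real.sqrt_mul_self (hw0 m)]
    rw [h3, hw]
    have h4 : (n.choose m : ℝ) * (2 : ℝ) ^ m * ((b - 2 : ℕ) : ℝ) ^ (n - m) / Real.sqrt (m + 1) =
        n.choose m * (2 ^ m / Real.sqrt (m + 1) * ((b - 2 : ℕ) : ℝ) ^ (n - m)) := by
      ring
    rw [h4]
    gcongr
    exact h1 m
  have h3 : (∑ m ∈ range (n + 1), Real.sqrt (w m) * Real.sqrt (w m / (m + 1))) ^ 2 ≤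
      (∑ m ∈ range (n + 1), w m) * ∑ m ∈ range (n + 1), w m / (m + 1) := by
    refine (Finset.sum_mul_sq_le_sq_mul_sq _ _ _).trans (le_of_eq ?_)
    congr 1
    · exact Finset.sum_congr rfl fun m _ => Real.sq_sqrt (hw0 m)
    · exact Finset.sum_congr rfl fun m _ => Real.sq_sqrt (by positivity)
  have h4 : ∑ m ∈ range (n + 1), w m = (b : ℝ) ^ n := by
    have h5 : (b : ℝ) = 2 + ((b - 2 : ℕ) : ℝ) := by
      rw [Nat.cast_sub hb]
      push_cast
      ring
    rw [h5, add_pow]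
    apply Finset.sum_congr rfl
    intro m _
    rw [hw]
    ring
  have h5 : 2 * ((n : ℝ) + 1) * ∑ m ∈ range (n + 1), w m / (m + 1) ≤ (b : ℝ) ^ (n + 1) := by
    have h6 : (b : ℝ) = 2 + ((b - 2 : ℕ) : ℝ) := by
      rw [Nat.cast_sub hb]
      push_cast
      ring
    nth_rewrite 1 [h6]
    rw [add_pow, Finset.sum_range_succ' _ (n + 1), Finset.mul_sum]
    have h7 : ∀ m ∈ range (n + 1), 2 * ((n : ℝ) + 1) * (w m / (m + 1)) =
        2 ^ (m + 1) * ((b - 2 : ℕ) : ℝ) ^ (n + 1 - (m + 1)) * ((n + 1).choose (m + 1) : ℝ) := by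
      intro m _
      have h8 : ((n : ℝ) + 1) * (n.choose m : ℝ) = ((n + 1).choose (m + 1) : ℝ) * (m + 1) := by
        have := Nat.add_one_mul_choose_eq n m
        exact_mod_cast this
      rw [Nat.add_sub_add_right, hw]
      have h9 : ((m : ℝ) + 1) ≠ 0 := by positivity
      field_simp
      linear_combination (2 * 2 ^ m * ((b - 2 : ℕ) : ℝ) ^ (n - m)) * h8
    rw [Finset.sum_congr rfl h7]
    have h10 : (0 : ℝ) ≤ 2 ^ 0 * ((b - 2 : ℕ) : ℝ) ^ (n + 1 - 0) * ((n + 1).choose 0 : ℝ) := by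
      positivity
    linarith
  set S : ℕ := ∑ m ∈ range (n + 1), n.choose m * (m.choose (m / 2) * (b - 2) ^ (n - m)) with hS
  have h6 : (2 : ℝ) * (n + 1) * (S : ℝ) ^ 2 ≤ (b : ℝ) ^ (2 * n + 1) := by
    have h7 : (S : ℝ) ^ 2 ≤ (b : ℝ) ^ n * ∑ m ∈ range (n + 1), w m / (m + 1) := by
      rw [← h4]
      exact (pow_le_pow_left₀ (Nat.cast_nonneg _) h2 2).trans h3
    calc (2 : ℝ) * (n + 1) * (S : ℝ) ^ 2
        ≤ 2 * (n + 1) * ((b : ℝ) ^ n * ∑ m ∈ range (n + 1), w m / (m + 1)) := by gcongr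
      _ = (b : ℝ) ^ n * (2 * ((n : ℝ) + 1) * ∑ m ∈ range (n + 1), w m / (m + 1)) := by ring
      _ ≤ (b : ℝ) ^ n * (b : ℝ) ^ (n + 1) := by gcongr
      _ = (b : ℝ) ^ (2 * n + 1) := by
          rw [← pow_add]
          congr 1
          ring
  exact_mod_cast h6

end Pool.Agent.Run7.H634.WZ
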