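import Pool.Agent.Run7.h634.WZ.Walk

/-!
# The eigenvalues of a tensor product of linear maps
-/

set_option autoImplicit false

open Module TensorProduct

namespace Pool.Agent.Run7.H634.WZ

section closed

variable {L V W : Type*} [Field L] [AddCommGroup V] [Module L V] [FiniteDimensional L V]
  [AddCommGroup W] [Module L W] [FiniteDimensional L W]

/-- If the vectors of a basis are generalized eigenvectors for the eigenvalues `l i`, then these are
the roots of the characteristic polynomial. -/
theorem roots_of_basis {ι : Type*} [Fintype ι] (f : End L V) (b : Basis ι L V) (l : ι → L)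
    (h : ∀ i, b i ∈ f.maxGenEigenspace (l i)) :
    f.charpoly.roots = Finset.univ.val.map l := by
  classical
  symm
  apply Multiset.eq_of_le_of_card_le
  · rw [Multiset.le_iff_count]
    intro m
    rw [Polynomial.count_roots, ← LinearMap.finrank_maxGenEigenspace_eq, Multiset.count_map,
      ← Finset.filter_val, Finset.card_val]
    let v : {i // m = l i} → f.maxGenEigenspace m := fun i => ⟨b i.1, by
      have h1 := h i.1
      rwa [← i.2] at h1⟩
    have hv : LinearIndependent L v := by
      apply LinearIndependent.of_comp (f.maxGenEigenspace m).subtype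
      exact b.linearIndependent.comp _ Subtype.val_injective
    have h2 := hv.fintype_card_le_finrank
    rw [Fintype.card_subtype] at h2
    exact h2
  · rw [Multiset.card_map, Finset.card_val, Finset.card_univ]
    refine (Polynomial.card_roots' _).trans (le_of_eq ?_)
    rw [LinearMap.charpoly_natDegree, finrank_eq_card_basis b]

/-- There is a basis of generalized eigenvectors. -/
theorem exists_gen_basis [IsAlgClosed L] (f : End L V) :
    ∃ (b : Basis (Fin (finrank L V)) L V) (l : Fin (finrank L V) → L),
      ∀ i, b i ∈ f.maxGenEigenspace (l i) := by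
  classical
  have h1 : DirectSum.IsInternal fun μ : L => f.maxGenEigenspace μ :=
    DirectSum.isInternal_submodule_of_iSupIndep_of_iSup_eq_top f.independent_maxGenEigenspace
      f.iSup_maxGenEigenspace_eq_top
  have h2 : ∀ i, h1.collectedBasis (fun μ : L => finBasis L (f.maxGenEigenspace μ)) i ∈
      f.maxGenEigenspace i.1 := fun i => h1.collectedBasis_mem _ i
  generalize h1.collectedBasis (fun μ : L => finBasis L (f.maxGenEigenspace μ)) = b at h2
  have hf : Finite (Σ μ : L, Fin (finrank L (f.maxGenEigenspace μ))) :=
    Module.Finite.finite_basis b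
  have hF : Fintype (Σ μ : L, Fin (finrank L (f.maxGenEigenspace μ))) := Fintype.ofFinite _
  have hc : Fintype.card (Σ μ : L, Fin (finrank L (f.maxGenEigenspace μ))) = finrank L V :=
    (finrank_eq_card_basis b).symm
  let e := Fintype.equivFinOfCardEq hc
  refine ⟨b.reindex e, fun i => (e.symm i).1, fun i => ?_⟩
  rw [Basis.reindex_apply]
  exact h2 _

/-- The tensor product of generalized eigenvectors is a generalized eigenvector. -/
theorem tmul_mem_gen (f : End L V) (g : End L W) {a c : L} {v : V} {w : W}
    (hv : v ∈ f.maxGenEigenspace a) (hw : w ∈ g.maxGenEigenspace c) :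
    v ⊗ₜ[L] w ∈ Module.End.maxGenEigenspace (TensorProduct.map f g) (a * c) := by
  rw [End.mem_maxGenEigenspace] at hv hw ⊢
  obtain ⟨m, hm⟩ := hv
  obtain ⟨n, hn⟩ := hw
  let A : End L (V ⊗[L] W) := TensorProduct.map (f - a • 1) g
  let B : End L (V ⊗[L] W) := TensorProduct.map (a • 1) (g - c • 1)
  have hAB : (TensorProduct.map f g : End L (V ⊗[L] W)) - (a * c) • 1 = A + B := by
    apply TensorProduct.ext'
    intro x y
    show f x ⊗ₜ[L] g y - (a * c) • (x ⊗ₜ[L] y) =
      (f x - a • x) ⊗ₜ[L] g y + (a • x) ⊗ₜ[L] (g y - c • y)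
    rw [TensorProduct.sub_tmul, TensorProduct.tmul_sub, TensorProduct.tmul_smul,
      ← TensorProduct.smul_tmul' a x y, smul_smul, mul_comm c a]
    abel
  have hcomm : Commute A B := by
    show A * B = B * A
    apply TensorProduct.ext'
    intro x y
    show (f (a • x) - a • (a • x)) ⊗ₜ g (g y - c • y) =
      (a • (f x - a • x)) ⊗ₜ (g (g y) - c • g y)
    rw [map_smul, map_sub, map_smul, smul_sub]
  have hA : ∀ (i : ℕ) (x : V) (y : W), (A ^ i) (x ⊗ₜ y) =
      (((f - a • 1) ^ i) x) ⊗ₜ ((g ^ i) y) := by
    intro i
    induction i with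
    | zero => intro x y; rfl
    | succ i ih =>
      intro x y
      rw [pow_succ, pow_succ, pow_succ]
      exact ih _ _
  have hB : ∀ (i : ℕ) (x : V) (y : W), (B ^ i) (x ⊗ₜ y) =
      (((a • 1 : End L V) ^ i) x) ⊗ₜ (((g - c • 1) ^ i) y) := by
    intro i
    induction i with
    | zero => intro x y; rfl
    | succ i ih =>
      intro x y
      rw [pow_succ, pow_succ, pow_succ]
      exact ih _ _
  refine ⟨m + n, ?_⟩
  rw [hAB, hcomm.add_pow, LinearMap.sum_apply]
  apply Finset.sum_eq_zero
  intro i hi
  rw [Finset.mem_range] at hi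
  rw [hcomm.pow_pow i (m + n - i) |>.eq, (Nat.cast_commute _ _).symm.eq]
  rcases le_total m i with h | h
  · have h3 : (A ^ i) (v ⊗ₜ w) = 0 := by
      rw [hA, show i = (i - m) + m by omega, pow_add]
      show (((f - a • 1) ^ (i - m)) (((f - a • 1) ^ m) v)) ⊗ₜ _ = _
      rw [hm, map_zero, TensorProduct.zero_tmul]
    show _ = _
    rw [Module.End.mul_apply, Module.End.mul_apply, h3, map_zero, map_zero]
  · rw [(hcomm.pow_pow i (m + n - i)).symm.eq]
    have h3 : (B ^ (m + n - i)) (v ⊗ₜ w) = 0 := by
      rw [hB, show m + n - i = (m - i) + n by omega, pow_add (g - c • 1)]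
      show _ ⊗ₜ (((g - c • 1) ^ (m - i)) (((g - c • 1) ^ n) w)) = _
      rw [hn, map_zero, TensorProduct.tmul_zero]
    rw [Module.End.mul_apply, Module.End.mul_apply, h3, map_zero, map_zero]

theorem map_product_map {α β γ δ : Type*} (f : α → γ) (g : β → δ) (s : Multiset α)
    (t : Multiset β) : (s.map f) ×ˢ (t.map g) = (s ×ˢ t).map (Prod.map f g) := by
  induction s using Multiset.induction_on with
  | empty => rw [Multiset.map_zero, Multiset.zero_product, Multiset.zero_product,
      Multiset.map_zero]
  | cons x s ih =>
    rw [Multiset.map_cons, Multiset.cons_product, Multiset.cons_product, Multiset.map_add, ih,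
      Multiset.map_map, Multiset.map_map]
    rfl

theorem roots_tensor_closed [IsAlgClosed L] (f : End L V) (g : End L W) :
    (TensorProduct.map f g).charpoly.roots = mulM f.charpoly.roots g.charpoly.roots := by
  obtain ⟨b, l, hb⟩ := exists_gen_basis f
  obtain ⟨c, k, hc⟩ := exists_gen_basis g
  rw [roots_of_basis f b l hb, roots_of_basis g c k hc,
    roots_of_basis _ (b.tensorProduct c) (fun i => l i.1 * k i.2)
      (fun i => by
        rw [Basis.tensorProduct_apply']
        exact tmul_mem_gen f g (hb i.1) (hc i.2))]
  rw [mulM, ← Finset.univ_product_univ, Finset.product_val]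
  rw [map_product_map, Multiset.map_map]
  rfl

end closed

end Pool.Agent.Run7.H634.WZ
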