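import Pool.Agent.Run7.h634.WZ.Comb

/-!
# Products of elements of a multiset in a torsion-free abelian group
-/

set_option autoImplicit false

open Finset

namespace Pool.Agent.Run7.H634.WZ

variable {Q : Type*} [CommGroup Q]

/-- The sum of the elements of a multiset in the monoid algebra. -/
noncomputable def P (B : Multiset Q) : MonoidAlgebra ℕ Q :=
  (B.map fun x => MonoidAlgebra.single x 1).sum

theorem P_cons (x : Q) (B : Multiset Q) : P (x ::ₘ B) = MonoidAlgebra.single x 1 + P B := by
  rw [P, Multiset.map_cons, Multiset.sum_cons]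
  rfl

theorem P_zero : P (0 : Multiset Q) = 0 := by
  rw [P, Multiset.map_zero, Multiset.sum_zero]

theorem P_add (B B' : Multiset Q) : P (B + B') = P B + P B' := by
  rw [P, Multiset.map_add, Multiset.sum_add]
  rfl

theorem P_apply [DecidableEq Q] (B : Multiset Q) (t : Q) : (P B).coeff t = B.count t := by
  induction B using Multiset.induction_on with
  | empty => rw [P_zero]; simp
  | cons x B ih =>
    rw [P_cons, Multiset.count_cons, MonoidAlgebra.coeff_add, Finsupp.add_apply, ih,
      MonoidAlgebra.coeff_single, Finsupp.single_apply, add_comm]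
    congr 1
    by_cases h : x = t
    · rw [if_pos h, if_pos h.symm]
    · rw [if_neg h, if_neg (Ne.symm h)]

/-- The multiset of the products. -/
def mulM {M : Type*} [Mul M] (B B' : Multiset M) : Multiset M :=
  (B ×ˢ B').map fun x => x.1 * x.2

theorem P_map_mul (x : Q) (B : Multiset Q) :
    P (B.map fun y => x * y) = MonoidAlgebra.single x 1 * P B := by
  induction B using Multiset.induction_on with
  | empty => rw [Multiset.map_zero, P_zero, mul_zero]
  | cons y B ih =>
    rw [Multiset.map_cons, P_cons, P_cons, mul_add, ih, MonoidAlgebra.single_mul_single, one_mul]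

theorem P_mulM (B B' : Multiset Q) : P (mulM B B') = P B * P B' := by
  induction B using Multiset.induction_on with
  | empty => rw [mulM, Multiset.zero_product, Multiset.map_zero, P_zero, zero_mul]
  | cons x B ih =>
    rw [mulM, Multiset.cons_product, Multiset.map_add, P_add, P_cons, add_mul]
    rw [mulM] at ih
    rw [ih, Multiset.map_map, ← P_map_mul]
    rfl

/-- The sum of the coefficients. -/
noncomputable def aug : MonoidAlgebra ℕ Q →ₐ[ℕ] ℕ := MonoidAlgebra.lift ℕ ℕ Q 1

theorem aug_single (x : Q) (c : ℕ) : aug (MonoidAlgebra.single x c) = c := by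
  rw [aug, MonoidAlgebra.lift_single]
  simp

theorem aug_P (B : Multiset Q) : aug (P B) = B.card := by
  induction B using Multiset.induction_on with
  | empty => rw [P_zero, map_zero, Multiset.card_zero]
  | cons x B ih => rw [P_cons, map_add, ih, aug_single, Multiset.card_cons, add_comm]

theorem coeff_mul_le {f : MonoidAlgebra ℕ Q} {M : ℕ} (hf : ∀ t, f.coeff t ≤ M)
    (g : MonoidAlgebra ℕ Q) (t : Q) : (f * g).coeff t ≤ M * aug g := by
  classical
  induction g using MonoidAlgebra.induction_linear with
  | zero => simp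
  | add g g' h h' =>
    rw [mul_add, MonoidAlgebra.coeff_add, Finsupp.add_apply, map_add, mul_add]
    exact Nat.add_le_add h h'
  | single x c =>
    rw [aug_single, MonoidAlgebra.coeff_mul_single_eq_coeff_mul (t * x⁻¹)]
    · exact Nat.mul_le_mul_right _ (hf _)
    · intro m' _
      constructor
      · rintro rfl
        rw [mul_inv_cancel_right]
      · rintro rfl
        rw [inv_mul_cancel_right]

theorem two_pow_coeff {x y : Q} (hxy : ∀ n : ℕ, 0 < n → (x * y⁻¹) ^ n ≠ 1) (m : ℕ) (t : Q) :
    ((MonoidAlgebra.single x 1 + MonoidAlgebra.single y 1 : MonoidAlgebra ℕ Q) ^ m).coeff t ≤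
      m.choose (m / 2) := by
  classical
  have hinj : ∀ i j, i ≤ m → j ≤ m → x ^ i * y ^ (m - i) = x ^ j * y ^ (m - j) → i = j := by
    have key : ∀ i j, i ≤ m → j < i → x ^ i * y ^ (m - i) ≠ x ^ j * y ^ (m - j) := by
      intro i j hi hj h
      apply hxy (i - j) (by omega)
      have h1 : x ^ i = x ^ j * x ^ (i - j) := by
        rw [← pow_add]
        congr 1
        omega
      have h2 : y ^ (m - j) = y ^ (m - i) * y ^ (i - j) := by
        rw [← pow_add]
        congr 1
        omega
      rw [h1, h2, mul_assoc, mul_right_inj, mul_comm, mul_right_inj] at h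
      rw [mul_pow, h, ← mul_pow, mul_inv_cancel, one_pow]
    intro i j hi hj h
    rcases lt_trichotomy i j with h1 | h1 | h1
    · exact absurd h.symm (key j i hj h1)
    · exact h1
    · exact absurd h (key i j hi h1)
  rw [add_pow, MonoidAlgebra.coeff_sum, Finset.sum_apply']
  have h1 : ∀ i ∈ range (m + 1), ((MonoidAlgebra.single x 1 : MonoidAlgebra ℕ Q) ^ i *
      MonoidAlgebra.single y 1 ^ (m - i) * (m.choose i : MonoidAlgebra ℕ Q)).coeff t =
      if x ^ i * y ^ (m - i) = t then m.choose i else 0 := by
    intro i _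
    rw [MonoidAlgebra.single_pow, MonoidAlgebra.single_pow, MonoidAlgebra.single_mul_single,
      one_pow, one_pow, one_mul, ← nsmul_eq_mul', MonoidAlgebra.coeff_smul, Finsupp.smul_apply,
      MonoidAlgebra.coeff_single, Finsupp.single_apply]
    split_ifs
    · simp
    · simp
  rw [Finset.sum_congr rfl h1]
  by_cases h2 : ∃ i ∈ range (m + 1), x ^ i * y ^ (m - i) = t
  · obtain ⟨i, hi, hit⟩ := h2
    rw [Finset.sum_eq_single_of_mem i hi, if_pos hit]
    · exact Nat.choose_le_middle i m
    · intro j hj hji
      apply if_neg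
      intro h3
      apply hji
      rw [Finset.mem_range] at hi hj
      exact hinj j i (by omega) (by omega) (h3.trans hit.symm)
  · rw [Finset.sum_eq_zero]
    · exact Nat.zero_le _
    · intro i hi
      apply if_neg
      intro h3
      exact h2 ⟨i, hi, h3⟩

/-- **The bound.** -/
theorem walk_bound (htf : ∀ (x : Q) (n : ℕ), 0 < n → x ^ n = 1 → x = 1) (B : Multiset Q)
    (hB : ∃ x ∈ B, x ≠ 1) {n : ℕ} (hn : 0 < n) :
    2 * (n + 1) * ((P B ^ n).coeff 1) ^ 2 ≤ B.card ^ (2 * n + 1) := by
  classical
  by_cases h : ∃ x ∈ B, ∃ y ∈ B, x ≠ y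
  · obtain ⟨x, hx, y, hy, hxy⟩ := h
    obtain ⟨B1, rfl⟩ := Multiset.exists_cons_of_mem hx
    have hy1 : y ∈ B1 := by
      rcases Multiset.mem_cons.1 hy with h1 | h1
      · exact absurd h1.symm hxy
      · exact h1
    obtain ⟨R, rfl⟩ := Multiset.exists_cons_of_mem hy1
    have hc : (x ::ₘ y ::ₘ R).card = R.card + 2 := by
      rw [Multiset.card_cons, Multiset.card_cons]
    have h2 : (P (x ::ₘ y ::ₘ R) ^ n).coeff 1 ≤ ∑ m ∈ range (n + 1),
        n.choose m * (m.choose (m / 2) * ((x ::ₘ y ::ₘ R).card - 2) ^ (n - m)) := by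
      rw [P_cons, P_cons, ← add_assoc, add_pow, MonoidAlgebra.coeff_sum, Finset.sum_apply']
      apply Finset.sum_le_sum
      intro m _
      rw [← nsmul_eq_mul', MonoidAlgebra.coeff_smul, Finsupp.smul_apply, smul_eq_mul]
      apply Nat.mul_le_mul_left
      have h3 := coeff_mul_le (two_pow_coeff (x := x) (y := y) (m := m) (fun k hk h4 => by
        apply hxy
        have h5 := htf _ k hk h4
        rwa [mul_inv_eq_one] at h5)) (P R ^ (n - m)) 1
      rw [map_pow, aug_P] at h3
      rw [hc, Nat.add_sub_cancel]
      exact h3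
    calc 2 * (n + 1) * ((P (x ::ₘ y ::ₘ R) ^ n).coeff 1) ^ 2
        ≤ 2 * (n + 1) * (∑ m ∈ range (n + 1),
        n.choose m * (m.choose (m / 2) * ((x ::ₘ y ::ₘ R).card - 2) ^ (n - m))) ^ 2 := by
          gcongr
      _ ≤ _ := sum_bound (by rw [hc]; omega) n
  · push Not at h
    obtain ⟨x, hx, hx1⟩ := hB
    have h1 : B = Multiset.replicate B.card x := Multiset.eq_replicate_card.2 fun y hy => h y hy x hx
    have h2 : P B = MonoidAlgebra.single x B.card := by
      rw [h1, P, Multiset.map_replicate, Multiset.sum_replicate, Multiset.card_replicate]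
      rw [MonoidAlgebra.smul_single]
      simp
    have h3 : (P B ^ n).coeff 1 = 0 := by
      rw [h2, MonoidAlgebra.single_pow, MonoidAlgebra.coeff_single, Finsupp.single_apply,
        if_neg]
      intro h4
      exact hx1 (htf x n hn h4)
    rw [h3]
    simp

end Pool.Agent.Run7.H634.WZ
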